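import Mathlib

/-!
# Infinite valence at the boundary case of Becker's criterion: definitions

`Data`: for every `n` a fold on the closed half plane `Re z ≥ 0`: `b n` with derivative `φ n`,
`F n` with derivative `exp (b n)`, `2 Re z |φ n z| ≤ A n`, decay at infinity, and
`F n (ζ n) = F n 0` with `ζ n` in the open half plane.

Scales: `q n = exp (-20 C n)`, `t 0 = 1`, `t (n+1) = q (n+1) t n`, `s n = (t n)^2`,
`x n = t n * t (n+1)`. The sum: `B z = ∑ b m (z / s m)`.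
-/

open Complex Set Filter Topology

namespace Pool.Agent.H50.IV

structure Data (b φ F : ℕ → ℂ → ℂ) (ζ : ℕ → ℂ) (C A : ℕ → ℝ) : Prop where
  C_ge : ∀ n : ℕ, (n : ℝ) + 2 ≤ C n
  C_step : ∀ n : ℕ, C n + 1 ≤ C (n + 1)
  db : ∀ n z, 0 ≤ z.re → HasDerivAt (b n) (φ n z) z
  dF : ∀ n z, 0 ≤ z.re → HasDerivAt (F n) (exp (b n z)) z
  hA : ∀ n z, 0 ≤ z.re → 2 * z.re * ‖φ n z‖ ≤ A n
  hφ : ∀ n z, 0 ≤ z.re → ‖φ n z‖ ≤ C n / (1 + ‖z‖) ^ 2
  hb : ∀ n z, 0 ≤ z.re → ‖b n z‖ ≤ C n / (1 + ‖z‖)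
  ζ_norm : ∀ n, ‖ζ n‖ ≤ C n
  ζ_re : ∀ n, 1 / C n ≤ (ζ n).re
  hF : ∀ n, F n (ζ n) = F n 0

/-- Ratios of the scales. -/
noncomputable def q (C : ℕ → ℝ) (n : ℕ) : ℝ := Real.exp (-20 * C n)

/-- Square roots of the scales. -/
noncomputable def t (C : ℕ → ℝ) : ℕ → ℝ
  | 0 => 1
  | (n + 1) => q C (n + 1) * t C n

/-- The scales. -/
noncomputable def s (C : ℕ → ℝ) (n : ℕ) : ℝ := t C n ^ 2

/-- The points between the scales `s n` and `s (n+1)`. -/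
noncomputable def x (C : ℕ → ℝ) (n : ℕ) : ℝ := t C n * t C (n + 1)

/-- The sum over all scales. -/
noncomputable def B (b : ℕ → ℂ → ℂ) (C : ℕ → ℝ) (z : ℂ) : ℂ := ∑' m, b m (z / (s C m : ℂ))

/-- The derivative of the sum. -/
noncomputable def B' (φ : ℕ → ℂ → ℂ) (C : ℕ → ℝ) (z : ℂ) : ℂ :=
  ∑' m, φ m (z / (s C m : ℂ)) / (s C m : ℂ)

/-- The constant seen at scale `n`. -/
noncomputable def K (b : ℕ → ℂ → ℂ) (n : ℕ) : ℂ := ∑ m ∈ Finset.range n, b m 0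

/-- The error at scale `n`. -/
noncomputable def ε (C : ℕ → ℝ) (n : ℕ) : ℝ := C n ^ 2 * q C n + 2 * C (n + 1) * q C (n + 1)

/-- The part of the half plane which belongs to the scale `n`. -/
def Reg (C : ℕ → ℝ) (n : ℕ) : Set ℂ :=
  {z | 0 < z.re ∧ x C n ≤ ‖z‖ ∧ ∀ m, n = m + 1 → ‖z‖ ≤ x C m}

end Pool.Agent.H50.IV
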