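import Mathlib
import Pool.Agent.H50.IV.Defs

/-! # Elementary inequalities for the scales -/

open Complex Set Filter Topology

namespace Pool.Agent.H50.IV

section scales

variable {C : ℕ → ℝ} (hge : ∀ n : ℕ, (n : ℝ) + 2 ≤ C n) (hstep : ∀ n : ℕ, C n + 1 ≤ C (n + 1))

include hge in
lemma two_le (n : ℕ) : 2 ≤ C n := by
  have := hge n
  have h : (0 : ℝ) ≤ n := Nat.cast_nonneg n
  linarith

lemma q_pos (n : ℕ) : 0 < q C n := Real.exp_pos _

/-- `q n ≤ (1 + C n)^(-20)`. -/
lemma q_mul_le (n : ℕ) (h : 0 ≤ C n) : q C n * (1 + C n) ^ 20 ≤ 1 := by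
  have h1 : (1 + C n) ^ 20 ≤ Real.exp (20 * C n) := by
    have h2 : Real.exp (20 * C n) = Real.exp (C n) ^ 20 := by
      rw [← Real.exp_nat_mul]; norm_num
    rw [h2]
    have h3 := Real.add_one_le_exp (C n)
    gcongr
    linarith
  have h4 : q C n * Real.exp (20 * C n) = 1 := by
    rw [q, ← Real.exp_add]
    simp
  calc q C n * (1 + C n) ^ 20 ≤ q C n * Real.exp (20 * C n) := by
        gcongr
        exact (q_pos n).le
    _ = 1 := h4

include hge in
/-- `C^k q` is small. -/
lemma pow_mul_q_le (n k : ℕ) (hk : k ≤ 10) : C n ^ k * q C n ≤ 1 / 1000 := by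
  have h2 := two_le hge n
  have h1 := q_mul_le (C := C) n (by linarith)
  have h3 : C n ^ k ≤ (1 + C n) ^ 10 := by
    calc C n ^ k ≤ (1 + C n) ^ k := by gcongr; linarith
      _ ≤ (1 + C n) ^ 10 := pow_le_pow_right₀ (by linarith) hk
  have h4 : (1000 : ℝ) ≤ (1 + C n) ^ 10 := by
    calc (1000 : ℝ) ≤ 3 ^ 10 := by norm_num
      _ ≤ (1 + C n) ^ 10 := by gcongr; linarith
  have h5 : (1 + C n) ^ 20 = (1 + C n) ^ 10 * (1 + C n) ^ 10 := by ring
  have hq := q_pos (C := C) n
  have h6 : C n ^ k * q C n ≤ (1 + C n) ^ 10 * q C n := by gcongr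
  have h7 : (1 + C n) ^ 10 * q C n * 1000 ≤ 1 := by
    calc (1 + C n) ^ 10 * q C n * 1000 ≤ (1 + C n) ^ 10 * q C n * (1 + C n) ^ 10 := by gcongr
      _ = q C n * (1 + C n) ^ 20 := by rw [h5]; ring
      _ ≤ 1 := h1
  linarith

include hge in
lemma q_le (n : ℕ) : q C n ≤ 1 / 1000 := by
  have := pow_mul_q_le hge n 0 (by norm_num)
  simpa using this

include hge in
lemma mul_q_le (n : ℕ) : C n * q C n ≤ 1 / 1000 := by
  have := pow_mul_q_le hge n 1 (by norm_num)
  simpa using this

lemma t_pos (n : ℕ) : 0 < t C n := by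
  induction n with
  | zero => simp [t]
  | succ n ih => rw [t]; exact mul_pos (q_pos _) ih

lemma t_succ (n : ℕ) : t C (n + 1) = q C (n + 1) * t C n := rfl

include hge in
lemma t_succ_le (n : ℕ) : t C (n + 1) ≤ t C n / 1000 := by
  rw [t_succ]
  have := q_le hge (n + 1)
  have h := t_pos (C := C) n
  nlinarith

include hge in
lemma t_le_one (n : ℕ) : t C n ≤ 1 := by
  induction n with
  | zero => simp [t]
  | succ n ih =>
    have := t_succ_le hge n
    have h := t_pos (C := C) n
    linarith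

lemma s_pos (n : ℕ) : 0 < s C n := pow_pos (t_pos n) 2

lemma x_pos (n : ℕ) : 0 < x C n := mul_pos (t_pos n) (t_pos (n + 1))

lemma s_succ (n : ℕ) : s C (n + 1) = q C (n + 1) ^ 2 * s C n := by
  rw [s, s, t_succ]; ring

lemma x_eq (n : ℕ) : x C n = q C (n + 1) * s C n := by
  rw [x, s, t_succ]; ring

lemma x_eq' (n : ℕ) : x C n * q C (n + 1) = s C (n + 1) := by
  rw [x, s, t_succ]; ring

include hge in
lemma s_le_one (n : ℕ) : s C n ≤ 1 := by
  rw [s]
  exact pow_le_one₀ (t_pos n).le (t_le_one hge n)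

include hge in
lemma Cs_succ (n : ℕ) : C (n + 1) * s C (n + 1) ≤ (1 / 2) * (C n * s C n) := by
  rw [s_succ]
  have h1 := mul_q_le hge (n + 1)
  have h2 := q_le hge (n + 1)
  have h3 := two_le hge n
  have hs := s_pos (C := C) n
  have hq := q_pos (C := C) (n + 1)
  calc C (n + 1) * (q C (n + 1) ^ 2 * s C n) = (C (n + 1) * q C (n + 1)) * q C (n + 1) * s C n := by
        ring
    _ ≤ (1 / 1000) * (1 / 1000) * s C n := by gcongr
    _ ≤ (1 / 2) * (C n * s C n) := by nlinarith

include hge in
lemma Cs_add (n k : ℕ) : C (k + n) * s C (k + n) ≤ (1 / 2) ^ k * (C n * s C n) := by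
  induction k with
  | zero => simp
  | succ k ih =>
    have h := Cs_succ hge (k + n)
    have e : k + 1 + n = k + n + 1 := by ring
    rw [e, pow_succ]
    linarith

include hge in
lemma summable_Cs (n : ℕ) : Summable fun k => C (k + n) * s C (k + n) := by
  refine Summable.of_nonneg_of_le (fun k => ?_) (Cs_add hge n)
    ((summable_geometric_two).mul_right _)
  have := two_le hge (k + n)
  exact mul_nonneg (by linarith) (s_pos _).le

include hge in
lemma tsum_Cs_le (n : ℕ) : ∑' k, C (k + n) * s C (k + n) ≤ 2 * (C n * s C n) := by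
  calc ∑' k, C (k + n) * s C (k + n) ≤ ∑' k : ℕ, (1 / 2) ^ k * (C n * s C n) :=
        Summable.tsum_le_tsum (Cs_add hge n) (summable_Cs hge n)
          ((summable_geometric_two).mul_right _)
    _ = 2 * (C n * s C n) := by rw [tsum_mul_right, tsum_geometric_two]

include hstep in
lemma C_mono : Monotone C := by
  apply monotone_nat_of_le_succ
  intro n
  have := hstep n
  linarith

include hge in
lemma s_anti : Antitone (s C) := by
  apply antitone_nat_of_succ_le
  intro n
  rw [s_succ]
  have h2 := q_le hge (n + 1)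
  have hs := s_pos (C := C) n
  have hq := q_pos (C := C) (n + 1)
  have : q C (n + 1) ^ 2 ≤ 1 := pow_le_one₀ hq.le (by linarith)
  nlinarith

include hge hstep in
lemma head_le (n : ℕ) : ∑ m ∈ Finset.range (n + 1), C m / s C m ≤ C (n + 1) ^ 2 / s C n := by
  have hs := s_pos (C := C) n
  calc ∑ m ∈ Finset.range (n + 1), C m / s C m
      ≤ ∑ m ∈ Finset.range (n + 1), C (n + 1) / s C n := by
        apply Finset.sum_le_sum
        intro m hm
        have hm' : m ≤ n := Nat.lt_succ_iff.1 (Finset.mem_range.1 hm)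
        have h1 : C m ≤ C (n + 1) := C_mono hstep (by omega)
        have h2 : s C n ≤ s C m := s_anti hge hm'
        have h3 := two_le hge m
        exact div_le_div₀ (by linarith) h1 hs h2
    _ = (n + 1) * (C (n + 1) / s C n) := by simp
    _ ≤ C (n + 1) * (C (n + 1) / s C n) := by
        have h1 := hge (n + 1)
        push_cast at h1
        have h2 : 0 ≤ C (n + 1) / s C n := div_nonneg (by
          have := two_le hge (n + 1); linarith) hs.le
        apply mul_le_mul_of_nonneg_right _ h2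
        linarith
    _ = C (n + 1) ^ 2 / s C n := by ring

end scales

end Pool.Agent.H50.IV
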