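import Mathlib
import Pool.Agent.H50.IV.Sum

/-! # Auxiliary facts for the final theorem -/

open Complex Set Filter Topology

namespace Pool.Agent.H50.IV

/-- The constants may be enlarged. -/
lemma Data.add {b φ F : ℕ → ℂ → ℂ} {ζ : ℕ → ℂ} {C A : ℕ → ℝ} (D : Data b φ F ζ C A) {c : ℝ}
    (hc : 0 ≤ c) : Data b φ F ζ (fun n => C n + c) A where
  C_ge n := by have := D.C_ge n; linarith
  C_step n := by have := D.C_step n; linarith
  db := D.db
  dF := D.dF
  hA := D.hA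
  hφ n z hz := (D.hφ n z hz).trans (by gcongr; linarith)
  hb n z hz := (D.hb n z hz).trans (by gcongr; linarith)
  ζ_norm n := (D.ζ_norm n).trans (by linarith)
  ζ_re n := by
    have h := D.ζ_re n
    have hC := Cpos D n
    refine le_trans ?_ h
    apply one_div_le_one_div_of_le hC
    linarith
  hF := D.hF

section

variable {b φ F : ℕ → ℂ → ℂ} {ζ : ℕ → ℂ} {C A : ℕ → ℝ} (D : Data b φ F ζ C A)

include D

lemma eps_le (n : ℕ) : ε C n ≤ 3 / C n := by
  have hC := Cpos D n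
  have hC' := Cpos D (n + 1)
  have h1 := q_mul_le (C := C) n hC.le
  have h2 := q_mul_le (C := C) (n + 1) hC'.le
  have hq := q_pos (C := C) n
  have hq' := q_pos (C := C) (n + 1)
  have hstep := D.C_step n
  have e1 : C n ^ 2 * q C n * C n ≤ 1 := by
    calc C n ^ 2 * q C n * C n = q C n * C n ^ 3 := by ring
      _ ≤ q C n * (1 + C n) ^ 20 := by
        gcongr
        calc C n ^ 3 ≤ (1 + C n) ^ 3 := by gcongr; linarith
          _ ≤ (1 + C n) ^ 20 := pow_le_pow_right₀ (by linarith) (by norm_num)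
      _ ≤ 1 := h1
  have e2 : C (n + 1) * q C (n + 1) * C n ≤ 1 := by
    calc C (n + 1) * q C (n + 1) * C n ≤ C (n + 1) * q C (n + 1) * C (n + 1) := by
          gcongr; linarith
      _ = q C (n + 1) * C (n + 1) ^ 2 := by ring
      _ ≤ q C (n + 1) * (1 + C (n + 1)) ^ 20 := by
        gcongr
        calc C (n + 1) ^ 2 ≤ (1 + C (n + 1)) ^ 2 := by gcongr; linarith
          _ ≤ (1 + C (n + 1)) ^ 20 := pow_le_pow_right₀ (by linarith) (by norm_num)
      _ ≤ 1 := h2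
  rw [ε, le_div_iff₀ hC]
  nlinarith

lemma t_le_pow (n : ℕ) : t C n ≤ (1 / 1000) ^ n := by
  induction n with
  | zero => simp [t]
  | succ n ih =>
    have h := t_succ_le D.C_ge n
    rw [pow_succ]
    linarith

lemma x_le_pow (n : ℕ) : x C n ≤ (1 / 1000) ^ n := by
  have h1 := t_le_pow D n
  have h2 := t_le_one D.C_ge (n + 1)
  have h3 := t_pos (C := C) n
  have h4 := t_pos (C := C) (n + 1)
  rw [x]
  nlinarith

lemma exists_reg {z : ℂ} (hz : 0 < z.re) : ∃ n, z ∈ Reg C n := by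
  have hz0 : 0 < ‖z‖ := lt_of_lt_of_le hz ((le_abs_self _).trans (abs_re_le_norm z))
  have hex : ∃ n, x C n ≤ ‖z‖ := by
    obtain ⟨n, hn⟩ := exists_pow_lt_of_lt_one hz0 (show (1 / 1000 : ℝ) < 1 by norm_num)
    exact ⟨n, (x_le_pow D n).trans hn.le⟩
  classical
  refine ⟨Nat.find hex, hz, Nat.find_spec hex, ?_⟩
  intro m hm
  have := Nat.find_min hex (m := m) (by omega)
  push Not at this
  exact this.le

lemma x_anti : Antitone (x C) := by
  apply antitone_nat_of_succ_le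
  intro n
  have h1 := t_succ_le D.C_ge n
  have h2 := t_succ_le D.C_ge (n + 1)
  have h3 := t_pos (C := C) n
  have h4 := t_pos (C := C) (n + 1)
  have h5 := t_pos (C := C) (n + 2)
  rw [x, x]
  have h6 : t C (n + 1) ≤ t C n := by linarith
  have h7 : t C (n + 1 + 1) ≤ t C (n + 1) := by linarith
  exact mul_le_mul h6 h7 h5.le h3.le

/-- Uniform bound away from the origin. -/
lemma norm_B'_le {z : ℂ} (hz : 0 < z.re) {τ : ℝ} (hτ : 0 < τ) (h : τ ≤ ‖z‖) :
    ‖B' φ C z‖ ≤ 2 * (C 0 * s C 0) / τ ^ 2 := by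
  have hs : Summable fun i => C (i + 0) * s C (i + 0) / ‖z‖ ^ 2 :=
    (summable_Cs D.C_ge 0).div_const _
  have hz0 : 0 < ‖z‖ := lt_of_lt_of_le hτ h
  rw [B']
  refine (tsum_of_norm_bounded hs.hasSum fun i => deriv_small_le D hz i).trans ?_
  rw [tsum_div_const]
  have h1 := tsum_Cs_le D.C_ge 0
  have hC := Cpos D 0
  have hs0 := s_pos (C := C) 0
  calc (∑' i, C (i + 0) * s C (i + 0)) / ‖z‖ ^ 2 ≤ (2 * (C 0 * s C 0)) / ‖z‖ ^ 2 := by gcongr
    _ ≤ 2 * (C 0 * s C 0) / τ ^ 2 := by gcongr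

end

lemma one_sub_sq_le (z : ℂ) : 1 - ‖z‖ ^ 2 ≤ 2 * (1 - z).re := by
  have h1 : ‖z‖ ^ 2 = z.re ^ 2 + z.im ^ 2 := by
    rw [← Complex.normSq_eq_norm_sq, Complex.normSq_apply]; ring
  rw [h1, sub_re, one_re]
  nlinarith [sq_nonneg (z.re - 1), sq_nonneg z.im]

lemma re_pos_of_mem {z : ℂ} (hz : ‖z‖ < 1) : 0 < (1 - z).re := by
  have h1 := (abs_lt.1 (lt_of_le_of_lt (abs_re_le_norm z) hz)).2
  rw [sub_re, one_re]
  linarith

lemma re_pos_of_mem_ball {z : ℂ} (hz : z ∈ Metric.ball (1 : ℂ) 1) : 0 < z.re := by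
  rw [Metric.mem_ball, dist_eq_norm] at hz
  have h1 : ‖1 - z‖ < 1 := by rwa [norm_sub_rev]
  have := re_pos_of_mem h1
  simpa using this

section

variable {b φ F : ℕ → ℂ → ℂ} {ζ : ℕ → ℂ} {C A : ℕ → ℝ} (D : Data b φ F ζ C A)

include D

/-- Decay of the sum. -/
lemma norm_B_le {z : ℂ} (hz : 0 < z.re) {τ : ℝ} (hτ : 0 < τ) (h : τ ≤ ‖z‖) :
    ‖B b C z‖ ≤ 2 * (C 0 * s C 0) / τ := by
  have hs : Summable fun i => C (i + 0) * s C (i + 0) / ‖z‖ :=
    (summable_Cs D.C_ge 0).div_const _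
  rw [B]
  refine (tsum_of_norm_bounded hs.hasSum fun i => small_le D hz i).trans ?_
  rw [tsum_div_const]
  have h1 := tsum_Cs_le D.C_ge 0
  have hC := Cpos D 0
  have hs0 := s_pos (C := C) 0
  calc (∑' i, C (i + 0) * s C (i + 0)) / ‖z‖ ≤ (2 * (C 0 * s C 0)) / ‖z‖ := by gcongr
    _ ≤ 2 * (C 0 * s C 0) / τ := by gcongr

/-- On the regions with `n ≥ 1` the point is small. -/
lemma norm_le_q {n : ℕ} (hn : 1 ≤ n) {z : ℂ} (hz : z ∈ Reg C n) : ‖z‖ ≤ q C n := by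
  obtain ⟨m, rfl⟩ : ∃ m, n = m + 1 := ⟨n - 1, by omega⟩
  have h1 := hz.2.2 m rfl
  rw [x_eq] at h1
  have h2 := s_le_one D.C_ge m
  have h3 := q_pos (C := C) (m + 1)
  nlinarith

lemma q_le_eps (n : ℕ) : q C n ≤ ε C n := by
  have h1 := two_le D.C_ge n
  have h2 := two_le D.C_ge (n + 1)
  have h3 := q_pos (C := C) n
  have h4 := q_pos (C := C) (n + 1)
  rw [ε]
  have h5 : 1 * q C n ≤ C n ^ 2 * q C n := by
    apply mul_le_mul_of_nonneg_right _ h3.le
    nlinarith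
  have h6 : 0 ≤ 2 * C (n + 1) * q C (n + 1) := by positivity
  linarith

end

end Pool.Agent.H50.IV
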