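import Mathlib
import Pool.Agent.H51.BeckerMap

/-!
# The fold

For every `r > 1` we construct analytic data on the closed half plane `Re z ≥ 0`: a function `β`
with derivative `φ`, `2 Re z |φ z| ≤ r' < r`, decaying at infinity, and a primitive `g` of `exp β`
such that `g ζ = g 0` for some `ζ` in the open half plane.
-/

open Complex Set Filter Topology
open Pool.Agent.H51.Becker

namespace Pool.Agent.H50.IV

lemma A_sq (τ : ℂ) : ‖1 + exp τ‖ ^ 2 =
    1 + 2 * (Real.exp τ.re * Real.cos τ.im) + Real.exp (2 * τ.re) := by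
  have h1 : (1 + exp τ).re = 1 + Real.exp τ.re * Real.cos τ.im := by
    rw [add_re, one_re, exp_re]
  have h2 : (1 + exp τ).im = Real.exp τ.re * Real.sin τ.im := by
    rw [add_im, one_im, exp_im]; ring
  rw [← Complex.normSq_eq_norm_sq, Complex.normSq_apply, h1, h2, two_mul τ.re, Real.exp_add]
  have hs : Real.sin τ.im ^ 2 = 1 - Real.cos τ.im ^ 2 := by
    have := Real.sin_sq_add_cos_sq τ.im; linarith
  ring_nf
  rw [hs]
  ring

lemma two_mul_le (τ : ℂ) : 2 * (1 + (Lam τ).re) ≤ ‖1 + exp τ‖ ^ 2 := by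
  rw [A_sq, Lam_re]
  have := Real.add_one_le_exp (2 * τ.re)
  linarith

lemma re_gt {τ : ℂ} (h : -1 < (Lam τ).re) : -(7 / 5 : ℝ) < τ.re := by
  by_contra hle
  push Not at hle
  rw [Lam_re] at h
  have h1 : Real.exp τ.re ≤ 1 / 4 := by
    have h2 : Real.exp τ.re ≤ Real.exp (-(7 / 5)) := Real.exp_le_exp.2 hle
    have h3 : (4 : ℝ) ≤ Real.exp (7 / 5) := by
      have h4 : Real.log 4 ≤ 7 / 5 := by
        have : (4 : ℝ) = 2 ^ 2 := by norm_num
        rw [this, Real.log_pow]
        have := Real.log_two_lt_d9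
        push_cast
        linarith
      rw [← Real.log_le_iff_le_exp (by norm_num)]
      exact h4
    rw [Real.exp_neg] at h2
    refine h2.trans ?_
    rw [one_div]
    exact inv_anti₀ (by norm_num) h3
  have h2 := Real.cos_le_one τ.im
  nlinarith [Real.exp_pos τ.re]

lemma norm_exp_neg_lt {τ : ℂ} (h : -1 < (Lam τ).re) : ‖exp (-τ)‖ < 5 := by
  rw [norm_exp, neg_re]
  have h1 := re_gt h
  have h2 : Real.exp (-τ.re) < Real.exp (7 / 5) := Real.exp_lt_exp.2 (by linarith)
  have h3 : Real.exp (7 / 5) < 5 := by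
    rw [← Real.lt_log_iff_exp_lt (by norm_num)]
    have h4 : (7 / 5 : ℝ) < Real.log 4 + 1 / 5 := by
      have : (4 : ℝ) = 2 ^ 2 := by norm_num
      rw [this, Real.log_pow]
      have := Real.log_two_gt_d9
      push_cast
      linarith
    have h5 : Real.log 4 + 1 / 5 ≤ Real.log 5 := by
      have h6 : Real.log 5 = Real.log 4 + Real.log (5 / 4) := by
        rw [← Real.log_mul (by norm_num) (by norm_num)]; norm_num
      have h7 := Real.one_sub_inv_le_log_of_pos (x := 5 / 4) (by norm_num)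
      rw [h6]
      norm_num at h7 ⊢
      linarith
    linarith
  linarith

lemma slit {τ : ℂ} (hτ : τ ∈ Strip) : 1 + exp (-τ) ∈ slitPlane := by
  rw [mem_slitPlane_iff]
  by_contra hcon
  push Not at hcon
  obtain ⟨h1, h2⟩ := hcon
  rw [add_re, one_re, exp_re, neg_re, neg_im, Real.cos_neg] at h1
  rw [add_im, one_im, exp_im, neg_re, neg_im, Real.sin_neg] at h2
  have hexp := Real.exp_pos (-τ.re)
  have hs : Real.sin τ.im = 0 := by
    have h3 : Real.exp (-τ.re) * Real.sin τ.im = 0 := by linarith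
    rcases mul_eq_zero.1 h3 with h4 | h4
    · exact absurd h4 hexp.ne'
    · exact h4
  have habs := abs_lt.1 (show |τ.im| < Real.pi from hτ)
  have h0 : τ.im = 0 := (Real.sin_eq_zero_iff_of_lt_of_lt habs.1 habs.2).1 hs
  rw [h0, Real.cos_zero, mul_one] at h1
  linarith

/-- The logarithm of the derivative of the fold, in the coordinate `τ`. -/
noncomputable def L (e τ : ℂ) : ℂ := log (1 + -(e * exp (-τ))) - log (1 + exp (-τ))

lemma norm_e_lt {e τ : ℂ} (he : ‖e‖ ≤ 1 / 10) (h : -1 < (Lam τ).re) :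
    ‖-(e * exp (-τ))‖ < 1 / 2 := by
  rw [norm_neg, norm_mul]
  have h1 := norm_exp_neg_lt h
  have h2 : ‖e‖ * ‖exp (-τ)‖ ≤ 1 / 10 * ‖exp (-τ)‖ := by gcongr
  linarith

lemma slit_e {e τ : ℂ} (he : ‖e‖ ≤ 1 / 10) (h : -1 < (Lam τ).re) :
    1 + -(e * exp (-τ)) ∈ slitPlane := by
  rw [mem_slitPlane_iff]
  left
  have h1 := norm_e_lt he h
  have h2 := (abs_le.1 (abs_re_le_norm (-(e * exp (-τ))))).1
  rw [add_re, one_re]
  linarith

lemma exp_L {e τ : ℂ} (he : ‖e‖ ≤ 1 / 10) (hτ : τ ∈ Strip) (h : -1 < (Lam τ).re) :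
    exp (L e τ) = (exp τ - e) / (1 + exp τ) := by
  have h1 := slitPlane_ne_zero (slit_e he h)
  have h2 := slitPlane_ne_zero (slit hτ)
  have h3 := one_add_exp_ne_zero hτ
  have h4 : exp τ ≠ 0 := exp_ne_zero τ
  rw [L, exp_sub, exp_log h1, exp_log h2, exp_neg]
  have e1 : 1 + -(e * (exp τ)⁻¹) = (exp τ - e) / exp τ := by field_simp; ring
  have e2 : 1 + (exp τ)⁻¹ = (1 + exp τ) / exp τ := by field_simp; ring
  rw [e1, e2, div_div_div_cancel_right₀ h4]

/-- The derivative of `β`. -/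
noncomputable def phi (e P : ℂ) : ℂ :=
  (1 + e) / ((1 + -(e * exp (-inv P))) * (1 + exp (inv P)) ^ 2)

lemma hasDerivAt_L {e P : ℂ} (he : ‖e‖ ≤ 1 / 10) (hP : -1 < P.re) :
    HasDerivAt (fun P => L e (inv P)) (phi e P) P := by
  have hτ := inv_mem hP
  have hL : Lam (inv P) = P := Lam_inv hP
  have hre : -1 < (Lam (inv P)).re := by rw [hL]; exact hP
  have h1 := slit_e he hre
  have h2 := slit hτ
  have h3 := one_add_exp_ne_zero hτ
  have d0 := hasDerivAt_inv hP
  have d1 := d0.fun_neg.cexp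
  have d2 := ((d1.const_mul e).fun_neg.const_add 1).clog h1
  have d3 := (d1.const_add 1).clog h2
  refine (d2.fun_sub d3).congr_deriv ?_
  have h1' := slitPlane_ne_zero h1
  have h2' := slitPlane_ne_zero h2
  have h4 : exp (inv P) ≠ 0 := exp_ne_zero _
  rw [phi]
  have key : exp (-inv P) = (exp (inv P))⁻¹ := exp_neg _
  simp only [key] at h1' h2' ⊢
  set w := exp (inv P) with hw
  have h1w : w - e ≠ 0 := by
    intro h0
    apply h1'
    have : w = e := by linear_combination h0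
    rw [← this]
    field_simp
    ring
  have h2w : w + 1 ≠ 0 := by
    intro h0; apply h3; linear_combination h0
  have e1 : 1 + -(e * w⁻¹) = (w - e) / w := by field_simp; ring
  have e2 : 1 + w⁻¹ = (w + 1) / w := by field_simp
  have e3 : 1 + w = w + 1 := by ring
  rw [e1, e2, e3]
  field_simp
  ring

/-- The fold. -/
noncomputable def fold (e P : ℂ) : ℂ := exp (inv P) - e * inv P

lemma hasDerivAt_fold {e P : ℂ} (he : ‖e‖ ≤ 1 / 10) (hP : -1 < P.re) :
    HasDerivAt (fold e) (exp (L e (inv P))) P := by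
  have hL : Lam (inv P) = P := Lam_inv hP
  have hre : -1 < (Lam (inv P)).re := by rw [hL]; exact hP
  rw [exp_L he (inv_mem hP) hre]
  have d0 := hasDerivAt_inv hP
  have d := d0.cexp.sub (d0.const_mul e)
  refine d.congr_deriv ?_
  have h3 := one_add_exp_ne_zero (inv_mem hP)
  field_simp

/-- The growth estimate. -/
lemma norm_Lam_le {τ : ℂ} (hτ : τ ∈ Strip) (h : -1 < (Lam τ).re) :
    ‖Lam τ‖ ≤ 2 * ‖exp τ‖ + 6 := by
  have h1 : ‖τ‖ ≤ |τ.re| + |τ.im| := norm_le_abs_re_add_abs_im _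
  have h2 : |τ.im| < 4 := lt_trans (show |τ.im| < Real.pi from hτ) Real.pi_lt_four
  have h3 : |τ.re| ≤ Real.exp τ.re + 2 := by
    rw [abs_le]
    constructor
    · have := re_gt h
      have := Real.exp_pos τ.re
      linarith
    · have := Real.add_one_le_exp τ.re
      linarith
  have h4 : ‖Lam τ‖ ≤ ‖τ‖ + ‖exp τ‖ := norm_add_le _ _
  rw [norm_exp] at h4 ⊢
  linarith

lemma norm_exp_gt {τ : ℂ} (h : -1 < (Lam τ).re) : 1 / 5 < ‖exp τ‖ := by
  have h1 := norm_exp_neg_lt h
  have h2 : ‖exp (-τ)‖ * ‖exp τ‖ = 1 := by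
    rw [← norm_mul, ← exp_add]; simp
  have h3 : 0 < ‖exp τ‖ := norm_pos_iff.2 (exp_ne_zero _)
  nlinarith

end Pool.Agent.H50.IV
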