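import Pool.Agent.H50.IV.Defs
import Pool.Agent.H50.IV.Fold

/-!
# The folds (M1, M1b)
-/

open Complex Set Filter Topology
open Pool.Agent.H51.Becker

namespace Pool.Agent.H50.IV

lemma cos_bound {a : ℝ} (ha : 0 < a) (ha' : a ≤ 1 / 10) :
    Real.cos a * (1 + a ^ 2 / 10) < 1 ∧ Real.cos a < 1 := by
  have h1 : Real.cos a ≤ 1 - 2 / Real.pi ^ 2 * a ^ 2 := by
    refine Real.cos_le_one_sub_mul_cos_sq ?_
    rw [abs_of_pos ha]
    have := Real.pi_gt_three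
    linarith
  have hpi : Real.pi ^ 2 ≤ 10 := by
    have h2 := Real.pi_lt_d2
    have h3 := Real.pi_pos
    nlinarith
  have hpi0 : 0 < Real.pi ^ 2 := by positivity
  have h2 : (1 : ℝ) / 5 ≤ 2 / Real.pi ^ 2 := by
    rw [div_le_div_iff₀ (by norm_num) hpi0]
    linarith
  have h3 : Real.cos a ≤ 1 - 1 / 5 * a ^ 2 := by
    have : 1 / 5 * a ^ 2 ≤ 2 / Real.pi ^ 2 * a ^ 2 := by gcongr
    linarith
  have ha2 : 0 < a ^ 2 := by positivity
  constructor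
  · nlinarith [mul_pos ha2 ha2]
  · linarith

lemma log_bound {x c : ℝ} (hx : 0 < x) (h : c * (1 + x) < 1) : 0 < Real.log (1 + x) - x * c := by
  have h1 := Real.one_sub_inv_le_log_of_pos (x := 1 + x) (by linarith)
  have h2 : 1 - (1 + x)⁻¹ = x / (1 + x) := by field_simp; ring
  rw [h2] at h1
  have h3 : x * c < x / (1 + x) := by
    rw [lt_div_iff₀ (by linarith)]
    nlinarith
  linarith

/-- the two points of the fold -/
lemma two_points {a : ℝ} (ha : 0 < a) (ha' : a ≤ 1 / 10) : ∃ τ₁ τ₂ : ℂ,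
    τ₁ ∈ Strip ∧ τ₂ ∈ Strip ∧ τ₁ ≠ τ₂ ∧ (Lam τ₂).re = -Real.cos a ∧
    0 < (Lam τ₁ - Lam τ₂).re ∧ ‖Lam τ₂‖ ≤ 5 ∧ ‖(exp τ₁ - exp τ₂) / (τ₁ - τ₂)‖ ≤ a := by
  have hpi3 := Real.pi_gt_three
  have hpi4 := Real.pi_lt_four
  set x : ℝ := a ^ 2 / 10 with hx
  have hx0 : 0 < x := by positivity
  have hxa : x ≤ a / 100 := by rw [hx]; nlinarith
  obtain ⟨hc1, hc2⟩ := cos_bound ha ha'
  have hl := log_bound hx0 hc1
  have hlog0 : 0 ≤ Real.log (1 + x) := Real.log_nonneg (by linarith)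
  set τ₁ : ℂ := ⟨Real.log (1 + x), Real.pi - a⟩ with hτ₁
  set τ₂ : ℂ := ⟨0, -(Real.pi - a)⟩ with hτ₂
  have hcos : Real.cos (Real.pi - a) = -Real.cos a := Real.cos_pi_sub a
  have hsin : Real.sin (Real.pi - a) = Real.sin a := Real.sin_pi_sub a
  have hsa : 0 ≤ Real.sin a := Real.sin_nonneg_of_nonneg_of_le_pi ha.le (by linarith)
  have hsa' : Real.sin a ≤ a := Real.sin_le ha.le
  have hca : -1 ≤ Real.cos a := Real.neg_one_le_cos a
  have hexp1 : Real.exp (Real.log (1 + x)) = 1 + x := Real.exp_log (by linarith)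
  have e1re : (exp τ₁).re = -((1 + x) * Real.cos a) := by
    rw [exp_re]
    show Real.exp (Real.log (1 + x)) * Real.cos (Real.pi - a) = _
    rw [hexp1, hcos]; ring
  have e1im : (exp τ₁).im = (1 + x) * Real.sin a := by
    rw [exp_im]
    show Real.exp (Real.log (1 + x)) * Real.sin (Real.pi - a) = _
    rw [hexp1, hsin]
  have e2re : (exp τ₂).re = -Real.cos a := by
    rw [exp_re]
    show Real.exp 0 * Real.cos (-(Real.pi - a)) = _
    rw [Real.exp_zero, Real.cos_neg, hcos]; ring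
  have e2im : (exp τ₂).im = -Real.sin a := by
    rw [exp_im]
    show Real.exp 0 * Real.sin (-(Real.pi - a)) = _
    rw [Real.exp_zero, Real.sin_neg, hsin]; ring
  have him : (τ₁ - τ₂).im = 2 * (Real.pi - a) := by
    show (Real.pi - a) - (-(Real.pi - a)) = _
    ring
  have himpos : 5 ≤ (τ₁ - τ₂).im := by rw [him]; linarith
  have hnorm : 5 ≤ ‖τ₁ - τ₂‖ := by
    refine himpos.trans ?_
    exact (le_abs_self _).trans (abs_im_le_norm _)
  refine ⟨τ₁, τ₂, ?_, ?_, ?_, ?_, ?_, ?_, ?_⟩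
  · show |Real.pi - a| < Real.pi
    rw [abs_of_pos (by linarith)]; linarith
  · show |-(Real.pi - a)| < Real.pi
    rw [abs_neg, abs_of_pos (by linarith)]; linarith
  · intro h
    rw [h, sub_self] at himpos
    simp at himpos
    linarith
  · show (τ₂ + exp τ₂).re = _
    rw [add_re, e2re]
    show (0 : ℝ) + _ = _
    ring
  · show 0 < ((τ₁ + exp τ₁) - (τ₂ + exp τ₂)).re
    rw [sub_re, add_re, add_re, e1re, e2re]
    show 0 < (Real.log (1 + x) + _) - ((0 : ℝ) + _)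
    linarith
  · have h1 : ‖Lam τ₂‖ ≤ ‖τ₂‖ + ‖exp τ₂‖ := norm_add_le _ _
    have h2 : ‖exp τ₂‖ = 1 := by
      rw [norm_exp]
      show Real.exp 0 = 1
      exact Real.exp_zero
    have h3 : ‖τ₂‖ ≤ |τ₂.re| + |τ₂.im| := norm_le_abs_re_add_abs_im _
    have h4 : |τ₂.re| = 0 := by
      show |(0 : ℝ)| = 0
      exact abs_zero
    have h5 : |τ₂.im| = Real.pi - a := by
      show |-(Real.pi - a)| = _
      rw [abs_neg, abs_of_pos (by linarith)]
    linarith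
  · rw [norm_div, div_le_iff₀ (by linarith)]
    have h1 : ‖exp τ₁ - exp τ₂‖ ≤ |(exp τ₁ - exp τ₂).re| + |(exp τ₁ - exp τ₂).im| :=
      norm_le_abs_re_add_abs_im _
    have h2 : |(exp τ₁ - exp τ₂).re| ≤ x := by
      rw [sub_re, e1re, e2re, abs_le]
      constructor <;> nlinarith
    have h3 : |(exp τ₁ - exp τ₂).im| ≤ (2 + x) * a := by
      rw [sub_im, e1im, e2im, abs_le]
      constructor
      · nlinarith [mul_nonneg (by linarith : (0 : ℝ) ≤ 2 + x) ha.le,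
          mul_nonneg (by linarith : (0 : ℝ) ≤ 2 + x) hsa]
      · nlinarith [mul_nonneg (by linarith : (0 : ℝ) ≤ 2 + x) (sub_nonneg.2 hsa')]
    have h4 : a * 5 ≤ a * ‖τ₁ - τ₂‖ := by gcongr
    nlinarith

/-- the bounds at one point, in the coordinate `τ` -/
lemma bounds {a : ℝ} {e τ : ℂ} {R c₁ : ℝ} (ha : 0 < a) (ha' : a ≤ 1 / 10) (he : ‖e‖ ≤ a)
    (hτ : τ ∈ Strip) (hre : -Real.cos a ≤ (Lam τ).re) (hc₁ : 0 < c₁)
    (hc : c₁ ^ 2 ≤ 2 * (1 - Real.cos a)) (hR : ‖Lam τ‖ + 5 ≥ R) (hR0 : 0 ≤ R) :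
    c₁ ≤ ‖1 + exp τ‖ ∧ 1 + R ≤ (2 + 14 / c₁) * ‖1 + exp τ‖ ∧
    ‖L e τ‖ ≤ (186 + 16 * (9 + 2 / c₁)) / (1 + R) ∧
    1 - 5 * a ≤ ‖1 + -(e * exp (-τ))‖ := by
  obtain ⟨-, hcos⟩ := cos_bound ha ha'
  have hre' : -1 < (Lam τ).re := by linarith
  have hA : c₁ ≤ ‖1 + exp τ‖ := by
    have h1 := two_mul_le τ
    have h2 : c₁ ^ 2 ≤ ‖1 + exp τ‖ ^ 2 := by linarith
    exact le_of_sq_le_sq h2 (norm_nonneg _)
  have hexpA : ‖exp τ‖ ≤ ‖1 + exp τ‖ + 1 := by
    calc ‖exp τ‖ = ‖(1 + exp τ) - 1‖ := by ring_nf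
      _ ≤ ‖1 + exp τ‖ + ‖(1 : ℂ)‖ := norm_sub_le _ _
      _ = _ := by rw [norm_one]
  have hL := norm_Lam_le hτ hre'
  have hexp5 := norm_exp_gt hre'
  have hv5 := norm_exp_neg_lt hre'
  have hvinv : ‖exp (-τ)‖ * ‖exp τ‖ = 1 := by
    rw [← norm_mul, ← exp_add]; simp
  have hv0 : 0 < ‖exp (-τ)‖ := norm_pos_iff.2 (exp_ne_zero _)
  have hR1 : 0 < 1 + R := by linarith
  have h62 : 1 + R ≤ 62 * ‖exp τ‖ := by linarith
  have hv62 : ‖exp (-τ)‖ ≤ 62 / (1 + R) := by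
    rw [le_div_iff₀ hR1]
    nlinarith
  have hu : ‖-(e * exp (-τ))‖ ≤ ‖exp (-τ)‖ := by
    rw [norm_neg, norm_mul]
    nlinarith
  have hu2 : ‖-(e * exp (-τ))‖ ≤ 1 / 2 := (norm_e_lt (he.trans ha') hre').le
  have hlogu : ‖log (1 + -(e * exp (-τ)))‖ ≤ 93 / (1 + R) := by
    have h1 := Complex.norm_log_one_add_half_le_self hu2
    have h2 : (3 : ℝ) / 2 * (62 / (1 + R)) = 93 / (1 + R) := by ring
    rw [← h2]
    nlinarith
  refine ⟨hA, ?_, ?_, ?_⟩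
  · have h1 : 14 ≤ 14 / c₁ * ‖1 + exp τ‖ := by
      calc (14 : ℝ) = 14 / c₁ * c₁ := by field_simp
        _ ≤ 14 / c₁ * ‖1 + exp τ‖ := by gcongr
    nlinarith
  · have hlogv : ‖log (1 + exp (-τ))‖ ≤ (93 + 16 * (9 + 2 / c₁)) / (1 + R) := by
      rcases le_or_gt ‖exp (-τ)‖ (1 / 2) with hv | hv
      · have h1 := Complex.norm_log_one_add_half_le_self hv
        have h2 : (3 : ℝ) / 2 * (62 / (1 + R)) = 93 / (1 + R) := by ring
        have h3 : 93 / (1 + R) ≤ (93 + 16 * (9 + 2 / c₁)) / (1 + R) := by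
          gcongr
          have : 0 < 2 / c₁ := by positivity
          linarith
        refine le_trans ?_ h3
        rw [← h2]
        nlinarith
      · have he2 : ‖exp τ‖ < 2 := by nlinarith
        have hR16 : 1 + R ≤ 16 := by linarith
        have hprod : ‖1 + exp (-τ)‖ = ‖1 + exp τ‖ * ‖exp (-τ)‖ := by
          rw [← norm_mul]
          congr 1
          rw [add_mul, ← exp_add]
          simp [add_comm]
        have hlow : c₁ / 2 ≤ ‖1 + exp (-τ)‖ := by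
          rw [hprod]; nlinarith
        have hup : ‖1 + exp (-τ)‖ ≤ 6 := by
          have := norm_add_le (1 : ℂ) (exp (-τ))
          rw [norm_one] at this
          linarith
        have hpos : 0 < ‖1 + exp (-τ)‖ := by
          have : 0 < c₁ / 2 := by positivity
          linarith
        have hlog : |Real.log ‖1 + exp (-τ)‖| ≤ 5 + 2 / c₁ := by
          have h1 := Real.log_le_sub_one_of_pos hpos
          have h2 := Real.one_sub_inv_le_log_of_pos hpos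
          have h3 : ‖1 + exp (-τ)‖⁻¹ ≤ 2 / c₁ := by
            have : (c₁ / 2)⁻¹ = 2 / c₁ := by rw [inv_div]
            rw [← this]
            exact inv_anti₀ (by positivity) hlow
          have h4 : 0 < 2 / c₁ := by positivity
          rw [abs_le]
          constructor <;> linarith
        have h5 : ‖log (1 + exp (-τ))‖ ≤ 9 + 2 / c₁ := by
          have h6 : ‖log (1 + exp (-τ))‖ ≤
              |(log (1 + exp (-τ))).re| + |(log (1 + exp (-τ))).im| :=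
            norm_le_abs_re_add_abs_im _
          rw [log_re, log_im] at h6
          have h7 := abs_arg_le_pi (1 + exp (-τ))
          have h8 := Real.pi_lt_four
          linarith
        have h9 : 0 < 9 + 2 / c₁ := by positivity
        rw [le_div_iff₀ hR1]
        nlinarith
    rw [L]
    have h1 := norm_sub_le (log (1 + -(e * exp (-τ)))) (log (1 + exp (-τ)))
    have h2 : (186 + 16 * (9 + 2 / c₁)) / (1 + R) =
        93 / (1 + R) + (93 + 16 * (9 + 2 / c₁)) / (1 + R) := by ring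
    rw [h2]
    linarith
  · have h1 : ‖(1 : ℂ)‖ - ‖-(e * exp (-τ))‖ ≤ ‖1 + -(e * exp (-τ))‖ := by
      have := norm_sub_norm_le (1 : ℂ) (e * exp (-τ))
      rw [norm_neg]
      rwa [← sub_eq_add_neg]
    rw [norm_one, norm_neg, norm_mul] at h1
    nlinarith [norm_nonneg e]

/-- M1: one fold. -/
theorem base (r : ℝ) (hr : 1 < r) : ∃ (β φ g : ℂ → ℂ) (ζ : ℂ) (C₀ : ℝ), 0 < ζ.re ∧
    (∀ z, 0 ≤ z.re → HasDerivAt β (φ z) z) ∧
    (∀ z, 0 ≤ z.re → HasDerivAt g (exp (β z)) z) ∧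
    (∀ z, 0 ≤ z.re → 2 * z.re * ‖φ z‖ ≤ r) ∧
    (∀ z, 0 ≤ z.re → ‖φ z‖ ≤ C₀ / (1 + ‖z‖) ^ 2) ∧
    (∀ z, 0 ≤ z.re → ‖β z‖ ≤ C₀ / (1 + ‖z‖)) ∧ g ζ = g 0 := by
  -- the parameter `a`
  obtain ⟨a, ha, ha', har⟩ : ∃ a : ℝ, 0 < a ∧ a ≤ 1 / 10 ∧ (1 + a) ≤ r * (1 - 5 * a) := by
    refine ⟨min (1 / 10) ((r - 1) / (1 + 5 * r)), ?_, min_le_left _ _, ?_⟩
    · refine lt_min (by norm_num) (div_pos (by linarith) (by linarith))
    · have h1 : min (1 / 10) ((r - 1) / (1 + 5 * r)) ≤ (r - 1) / (1 + 5 * r) := min_le_right _ _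
      have h2 : 0 < 1 + 5 * r := by linarith
      have h3 : (r - 1) / (1 + 5 * r) * (1 + 5 * r) = r - 1 := by field_simp
      nlinarith
  obtain ⟨τ₁, τ₂, hτ₁, hτ₂, hne, hP2, hζ, hP2n, hen⟩ := two_points ha ha'
  obtain ⟨-, hcos⟩ := cos_bound ha ha'
  set e : ℂ := (exp τ₁ - exp τ₂) / (τ₁ - τ₂) with he
  set P₂ : ℂ := Lam τ₂ with hP₂
  have he10 : ‖e‖ ≤ 1 / 10 := hen.trans ha'
  set c₁ : ℝ := Real.sqrt (2 * (1 - Real.cos a)) with hc₁
  have hc₁pos : 0 < c₁ := Real.sqrt_pos.2 (by linarith)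
  have hc₁sq : c₁ ^ 2 = 2 * (1 - Real.cos a) := Real.sq_sqrt (by linarith)
  set c₂ : ℝ := 2 + 14 / c₁ with hc₂
  have hc₂pos : 0 < c₂ := by positivity
  have hP : ∀ z : ℂ, 0 ≤ z.re → -Real.cos a ≤ (z + P₂).re := by
    intro z hz
    rw [add_re, hP2]; linarith
  have hP' : ∀ z : ℂ, 0 ≤ z.re → -1 < (z + P₂).re := by
    intro z hz
    have := hP z hz
    linarith
  have hb : ∀ z : ℂ, 0 ≤ z.re → c₁ ≤ ‖1 + exp (inv (z + P₂))‖ ∧
      1 + ‖z‖ ≤ c₂ * ‖1 + exp (inv (z + P₂))‖ ∧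
      ‖L e (inv (z + P₂))‖ ≤ (186 + 16 * (9 + 2 / c₁)) / (1 + ‖z‖) ∧
      1 - 5 * a ≤ ‖1 + -(e * exp (-inv (z + P₂)))‖ := by
    intro z hz
    have hL : Lam (inv (z + P₂)) = z + P₂ := Lam_inv (hP' z hz)
    refine bounds ha ha' hen (inv_mem (hP' z hz)) ?_ hc₁pos hc₁sq.le ?_ (norm_nonneg z)
    · rw [hL]; exact hP z hz
    · rw [hL]
      have h1 : ‖z‖ ≤ ‖z + P₂‖ + ‖P₂‖ := by
        calc ‖z‖ = ‖(z + P₂) - P₂‖ := by ring_nf
          _ ≤ _ := norm_sub_le _ _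
      show ‖z‖ ≤ ‖z + P₂‖ + 5
      linarith
  have hphi : ∀ z : ℂ, 0 ≤ z.re → ‖phi e (z + P₂)‖ * ‖1 + exp (inv (z + P₂))‖ ^ 2 ≤ r := by
    intro z hz
    obtain ⟨h1, -, -, h4⟩ := hb z hz
    have hA : 0 < ‖1 + exp (inv (z + P₂))‖ := lt_of_lt_of_le hc₁pos h1
    have h5a : 0 < 1 - 5 * a := by linarith
    have hd : 0 < ‖1 + -(e * exp (-inv (z + P₂)))‖ := lt_of_lt_of_le h5a h4
    rw [phi, norm_div, norm_mul, norm_pow]
    have h6 : ‖1 + e‖ / (‖1 + -(e * exp (-inv (z + P₂)))‖ * ‖1 + exp (inv (z + P₂))‖ ^ 2) *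
        ‖1 + exp (inv (z + P₂))‖ ^ 2 = ‖1 + e‖ / ‖1 + -(e * exp (-inv (z + P₂)))‖ := by
      field_simp
    rw [h6, div_le_iff₀ hd]
    have h7 : ‖1 + e‖ ≤ 1 + a := by
      have := norm_add_le (1 : ℂ) e
      rw [norm_one] at this
      linarith
    have h8 : r * (1 - 5 * a) ≤ r * ‖1 + -(e * exp (-inv (z + P₂)))‖ := by gcongr
    linarith
  refine ⟨fun z => L e (inv (z + P₂)), fun z => phi e (z + P₂), fun z => fold e (z + P₂),
    Lam τ₁ - P₂, r * c₂ ^ 2 + (186 + 16 * (9 + 2 / c₁)), hζ, ?_, ?_, ?_, ?_, ?_, ?_⟩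
  · intro z hz
    exact (hasDerivAt_L he10 (hP' z hz)).comp_add_const z P₂
  · intro z hz
    exact (hasDerivAt_fold he10 (hP' z hz)).comp_add_const z P₂
  · intro z hz
    have h1 := hphi z hz
    have hL : Lam (inv (z + P₂)) = z + P₂ := Lam_inv (hP' z hz)
    have h2 := two_mul_le (inv (z + P₂))
    rw [hL] at h2
    have h3 : (z + P₂).re = z.re - Real.cos a := by rw [add_re, hP2]; ring
    rw [h3] at h2
    have h4 : 2 * z.re ≤ ‖1 + exp (inv (z + P₂))‖ ^ 2 := by linarith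
    show 2 * z.re * ‖phi e (z + P₂)‖ ≤ r
    have h5 : 2 * z.re * ‖phi e (z + P₂)‖ ≤
        ‖1 + exp (inv (z + P₂))‖ ^ 2 * ‖phi e (z + P₂)‖ := by gcongr
    linarith
  · intro z hz
    have h1 := hphi z hz
    obtain ⟨-, h2, -, -⟩ := hb z hz
    show ‖phi e (z + P₂)‖ ≤ _
    have hz1 : 0 < (1 + ‖z‖) ^ 2 := by positivity
    rw [le_div_iff₀ hz1]
    have h3 : (1 + ‖z‖) ^ 2 ≤ (c₂ * ‖1 + exp (inv (z + P₂))‖) ^ 2 := by gcongr
    have h4 : ‖phi e (z + P₂)‖ * (1 + ‖z‖) ^ 2 ≤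
        ‖phi e (z + P₂)‖ * (c₂ * ‖1 + exp (inv (z + P₂))‖) ^ 2 := by gcongr
    have h5 : ‖phi e (z + P₂)‖ * (c₂ * ‖1 + exp (inv (z + P₂))‖) ^ 2 =
        c₂ ^ 2 * (‖phi e (z + P₂)‖ * ‖1 + exp (inv (z + P₂))‖ ^ 2) := by ring
    have h6 : c₂ ^ 2 * (‖phi e (z + P₂)‖ * ‖1 + exp (inv (z + P₂))‖ ^ 2) ≤ c₂ ^ 2 * r := by
      gcongr
    have h7 : 0 < 186 + 16 * (9 + 2 / c₁) := by positivity
    linarith
  · intro z hz
    obtain ⟨-, -, h3, -⟩ := hb z hz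
    refine h3.trans ?_
    have : 0 ≤ r * c₂ ^ 2 := by positivity
    exact div_le_div_of_nonneg_right (by linarith) (by positivity)
  · show fold e (Lam τ₁ - P₂ + P₂) = fold e (0 + P₂)
    rw [sub_add_cancel, zero_add, hP₂, fold, fold, inv_Lam hτ₁, inv_Lam hτ₂]
    have h1 : τ₁ - τ₂ ≠ 0 := sub_ne_zero.2 hne
    have h2 : e * (τ₁ - τ₂) = exp τ₁ - exp τ₂ := by
      rw [he]; field_simp
    linear_combination -h2

/-- M1b: the sequence of folds. -/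
theorem exists_data (A : ℕ → ℝ) (hA : ∀ n, 1 < A n) :
    ∃ (b φ F : ℕ → ℂ → ℂ) (ζ : ℕ → ℂ) (C : ℕ → ℝ), Data b φ F ζ C A := by
  choose b φ F ζ C₀ h1 h2 h3 h4 h5 h6 h7 using fun n => base (A n) (hA n)
  set u : ℕ → ℝ := fun i => |C₀ i| + ‖ζ i‖ + 1 / (ζ i).re + 1 with hu
  have hu1 : ∀ i, 1 ≤ u i := by
    intro i
    have := abs_nonneg (C₀ i)
    have := norm_nonneg (ζ i)
    have : 0 < 1 / (ζ i).re := one_div_pos.2 (h1 i)
    simp only [hu]
    linarith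
  set C : ℕ → ℝ := fun n => ∑ i ∈ Finset.range (n + 1), u i + 2 with hC
  have hsum : ∀ n : ℕ, (n : ℝ) + 1 ≤ ∑ i ∈ Finset.range (n + 1), u i := by
    intro n
    have := Finset.card_nsmul_le_sum (Finset.range (n + 1)) u 1 fun i _ => hu1 i
    simpa using this
  have hle : ∀ n : ℕ, u n ≤ ∑ i ∈ Finset.range (n + 1), u i := by
    intro n
    exact Finset.single_le_sum (f := u) (fun i _ => zero_le_one.trans (hu1 i))
      (Finset.self_mem_range_succ n)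
  have hCu : ∀ n, u n + 2 ≤ C n := by
    intro n
    have := hle n
    simp only [hC]
    linarith
  have hC0 : ∀ n, C₀ n ≤ C n := by
    intro n
    have h := hCu n
    have := le_abs_self (C₀ n)
    have := norm_nonneg (ζ n)
    have : 0 < 1 / (ζ n).re := one_div_pos.2 (h1 n)
    simp only [hu] at h
    linarith
  refine ⟨b, φ, F, ζ, C, ?_, ?_, h2, h3, h4, ?_, ?_, ?_, ?_, h7⟩
  · intro n
    have := hsum n
    simp only [hC]
    linarith
  · intro n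
    have h := hu1 (n + 1)
    simp only [hC]
    rw [Finset.sum_range_succ _ (n + 1)]
    linarith
  · intro n z hz
    refine (h5 n z hz).trans ?_
    have := hC0 n
    gcongr
  · intro n z hz
    refine (h6 n z hz).trans ?_
    have := hC0 n
    gcongr
  · intro n
    have h := hCu n
    have := abs_nonneg (C₀ n)
    have : 0 < 1 / (ζ n).re := one_div_pos.2 (h1 n)
    simp only [hu] at h
    linarith
  · intro n
    have h := hCu n
    have h8 := abs_nonneg (C₀ n)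
    have h9 := norm_nonneg (ζ n)
    have h10 : 0 < 1 / (ζ n).re := one_div_pos.2 (h1 n)
    simp only [hu] at h
    have h11 : 1 / (ζ n).re ≤ C n := by linarith
    have h12 : 0 < C n := by linarith
    rw [div_le_iff₀ h12]
    rw [div_le_iff₀ (h1 n)] at h11
    linarith

end Pool.Agent.H50.IV
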