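import Mathlib
import Pool.Agent.H50.IV.Defs

/-! Plan of the modules (all statements). Not imported by anything. -/

open Complex Set Filter Topology

namespace Pool.Agent.H50.IV.Plan
open Pool.Agent.H50.IV

/-- M1 (helper91; file `Base.lean`, imports Fold.lean): one fold. -/
theorem base (r : ℝ) (hr : 1 < r) : ∃ (β φ g : ℂ → ℂ) (ζ : ℂ) (C₀ : ℝ), 0 < ζ.re ∧
    (∀ z, 0 ≤ z.re → HasDerivAt β (φ z) z) ∧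
    (∀ z, 0 ≤ z.re → HasDerivAt g (exp (β z)) z) ∧
    (∀ z, 0 ≤ z.re → 2 * z.re * ‖φ z‖ ≤ r) ∧
    (∀ z, 0 ≤ z.re → ‖φ z‖ ≤ C₀ / (1 + ‖z‖) ^ 2) ∧
    (∀ z, 0 ≤ z.re → ‖β z‖ ≤ C₀ / (1 + ‖z‖)) ∧ g ζ = g 0 := by
  sorry

/-- M1b (helper91; file `Base.lean`): the sequence of folds. -/
theorem exists_data (A : ℕ → ℝ) (hA : ∀ n, 1 < A n) :
    ∃ (b φ F : ℕ → ℂ → ℂ) (ζ : ℕ → ℂ) (C : ℕ → ℝ), Data b φ F ζ C A := by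
  sorry

/-- M4 (helper50; file `Sum.lean`). -/
theorem region {b φ F : ℕ → ℂ → ℂ} {ζ : ℕ → ℂ} {C A : ℕ → ℝ} (D : Data b φ F ζ C A)
    {n : ℕ} {z : ℂ} (hz : z ∈ Reg C n) :
    ‖B b C z - K b n - b n (z / (s C n : ℂ))‖ ≤ ε C n := by
  sorry

theorem hasDerivAt_B {b φ F : ℕ → ℂ → ℂ} {ζ : ℕ → ℂ} {C A : ℕ → ℝ} (D : Data b φ F ζ C A)
    {z : ℂ} (hz : 0 < z.re) : HasDerivAt (B b C) (B' φ C z) z := by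
  sorry

theorem norm_B' {b φ F : ℕ → ℂ → ℂ} {ζ : ℕ → ℂ} {C A : ℕ → ℝ} (D : Data b φ F ζ C A)
    {n : ℕ} {z : ℂ} (hz : z ∈ Reg C n) : 2 * z.re * ‖B' φ C z‖ ≤ A n + 2 * ε C n := by
  sorry

/-- M5 (helper7; file `Value.lean`): a value taken at every scale `n ≥ 1`. May use M4. -/
theorem value {b φ F : ℕ → ℂ → ℂ} {ζ : ℕ → ℂ} {C A : ℕ → ℝ} (D : Data b φ F ζ C A)
    (hA : ∀ n, A n ≤ 2) (G : ℂ → ℂ) (hG : ∀ z ∈ Metric.ball (1 : ℂ) 1,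
      HasDerivAt G (exp (B b C z)) z) :
    ∃ w : ℂ, ∀ n, 1 ≤ n → ∃ z ∈ Metric.ball (1 : ℂ) 1, G z = w ∧ ‖z‖ ≤ 2 * C n * s C n := by
  sorry

/-- M5, ABSTRACT FORM (helper7, please prove this one): `Bt` is `B` plus a smooth function. -/
theorem value_abs {b φ F : ℕ → ℂ → ℂ} {ζ : ℕ → ℂ} {C A : ℕ → ℝ} (D : Data b φ F ζ C A)
    (Bt Bt' G : ℂ → ℂ) (k : ℂ) (hB : ∀ z ∈ Metric.ball (1 : ℂ) 1, HasDerivAt Bt (Bt' z) z)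
    (hreg : ∀ n, 1 ≤ n → ∀ z ∈ Metric.ball (1 : ℂ) 1, z ∈ Reg C n →
      ‖Bt z - k - K b n - b n (z / (s C n : ℂ))‖ ≤ 2 * ε C n)
    (hB' : ∀ n, 1 ≤ n → ∀ z ∈ Metric.ball (1 : ℂ) 1, z ∈ Reg C n → 2 * z.re * ‖Bt' z‖ ≤ 3)
    (hG : ∀ z ∈ Metric.ball (1 : ℂ) 1, HasDerivAt G (exp (Bt z)) z) :
    ∃ w : ℂ, ∀ n, 1 ≤ n → ∃ z ∈ Metric.ball (1 : ℂ) 1, G z = w ∧ ‖z‖ ≤ 2 * C n * s C n := by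
  sorry

/-- M6 (helper50; file `Final.lean`). -/
theorem final (r : ℝ) (hr : 1 < r) : ∃ f g : ℂ → ℂ, DifferentiableOn ℂ f (Metric.ball 0 1) ∧
    f 0 = 0 ∧ g 0 = 0 ∧ (∀ z ∈ Metric.ball (0 : ℂ) 1, HasDerivAt g (exp (f z)) z) ∧
    (∃ r' < r, ∀ z ∈ Metric.ball (0 : ℂ) 1, (1 - ‖z‖ ^ 2) * ‖deriv f z‖ ≤ r') ∧
    (∀ e > 0, ∃ ρ < 1, ∀ z : ℂ, ρ < ‖z‖ → ‖z‖ < 1 → (1 - ‖z‖ ^ 2) * ‖deriv f z‖ ≤ 1 + e) ∧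
    ∃ w : ℂ, {z ∈ Metric.ball (0 : ℂ) 1 | g z = w}.Infinite := by
  sorry

end Pool.Agent.H50.IV.Plan
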